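import Mathlib

/-!
# Good drawings of complete graphs on the sphere: convex, h-convex and f-convex drawings
-/

set_option autoImplicit false

namespace Pool.Agent.H858FC

open Set

/-- The sphere `S²`. -/
abbrev S2 : Type := Metric.sphere (0 : EuclideanSpace ℝ (Fin 3)) 1

/-- `A` is (the set of points of) a simple arc on the sphere joining `p` and `q`. -/
def IsArc (A : Set S2) (p q : S2) : Prop :=
  ∃ γ : Path p q, Function.Injective γ ∧ Set.range γ = A

/-- The arcs `A` and `B` cross transversally at `z`: in suitable local coordinates around `z` (a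
homeomorphism `φ` between a neighbourhood of `z` and an open subset of `ℝ × ℝ`, with `φ z = 0`),
the arc `A` is the first coordinate axis and the arc `B` is the second coordinate axis. -/
def IsTransversalCrossing (A B : Set S2) (z : S2) : Prop :=
  ∃ φ : OpenPartialHomeomorph S2 (ℝ × ℝ), z ∈ φ.source ∧ φ z = (0, 0) ∧
    ∀ w ∈ φ.source, (w ∈ A ↔ (φ w).2 = 0) ∧ (w ∈ B ↔ (φ w).1 = 0)

/-- A good drawing on the sphere `S²` of the complete graph with vertex set `V`.  The vertices are
distinct points, every edge `uv` is a simple arc between its ends passing through no other vertex,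
two edges with a common end have only this end in common (they do not cross), and two edges
without a common end have at most one common point, which is a transversal crossing. -/
structure GoodDrawing (V : Type) where
  /-- the point of a vertex -/
  pt : V → S2
  /-- the arc of an edge -/
  arc : V → V → Set S2
  pt_inj : Function.Injective pt
  arc_comm : ∀ u v, arc u v = arc v u
  isArc : ∀ u v, u ≠ v → IsArc (arc u v) (pt u) (pt v)
  avoid : ∀ u v w, u ≠ v → w ≠ u → w ≠ v → pt w ∉ arc u v
  adjacent : ∀ u v w, u ≠ v → u ≠ w → v ≠ w → arc u v ∩ arc u w = {pt u}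
  once : ∀ a b c d, a ≠ b → c ≠ d → a ≠ c → a ≠ d → b ≠ c → b ≠ d →
    (arc a b ∩ arc c d).Subsingleton
  transversal : ∀ a b c d, a ≠ b → c ≠ d → a ≠ c → a ≠ d → b ≠ c → b ≠ d →
    ∀ z ∈ arc a b ∩ arc c d, IsTransversalCrossing (arc a b) (arc c d) z

/-- `C` is a (connected) component of the set `X`. -/
def IsComponent (C X : Set S2) : Prop := ∃ x ∈ X, C = connectedComponentIn X x

namespace GoodDrawing

variable {V : Type} (D : GoodDrawing V)

/-- `D[J]`, as a set of points, for the complete subgraph `J` (given by its set of vertices):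
the union of all edges joining two vertices of `J`.  For a set `T` of three vertices this is
`D[T]` for the 3-cycle `T`; for the set of all vertices it is `D[K_n]`. -/
def image (J : Set V) : Set S2 := {z | ∃ u ∈ J, ∃ v ∈ J, u ≠ v ∧ z ∈ D.arc u v}

/-- `Δ` is a side of the 3-cycle `T` (given by its three vertices): the closure of a component of
the complement of the closed curve `D[T]`. -/
def IsSide (T : Finset V) (Δ : Set S2) : Prop :=
  ∃ C, IsComponent C (D.image T)ᶜ ∧ Δ = closure C

/-- `Δ` is a convex side of the 3-cycle `T`. -/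
def IsConvexSide (T : Finset V) (Δ : Set S2) : Prop :=
  D.IsSide T Δ ∧ ∀ x y, x ≠ y → D.pt x ∈ Δ → D.pt y ∈ Δ → D.arc x y ⊆ Δ

/-- `D` is convex: every 3-cycle has a convex side. -/
def IsConvex : Prop := ∀ T : Finset V, T.card = 3 → ∃ Δ, D.IsConvexSide T Δ

/-- `D` is h-convex: a convex side `Δ T` can be chosen for every 3-cycle `T` so that, whenever
`D[T'] ⊆ Δ T`, the closed disc bounded by `D[T']` inside `Δ T` (that is: the side of `T'`
contained in `Δ T`) is a convex side of `T'`. -/
def IsHConvex : Prop :=
  ∃ Δ : Finset V → Set S2, (∀ T : Finset V, T.card = 3 → D.IsConvexSide T (Δ T)) ∧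
    ∀ T T' : Finset V, T.card = 3 → T'.card = 3 → D.image T' ⊆ Δ T →
      (∃ Δ', D.IsSide T' Δ' ∧ Δ' ⊆ Δ T) ∧
      ∀ Δ', D.IsSide T' Δ' → Δ' ⊆ Δ T → D.IsConvexSide T' Δ'

/-- `Γ` is a face of `D`: a component of the complement of `D[K_n]`. -/
def IsFace (Γ : Set S2) : Prop := IsComponent Γ (D.image Set.univ)ᶜ

/-- `D` is f-convex: `D` is convex and there is a face `Γ` of `D` such that for every 3-cycle `T`
the side of `D[T]` disjoint from `Γ` is convex. -/
def IsFConvex : Prop :=
  D.IsConvex ∧ ∃ Γ, D.IsFace Γ ∧ ∀ T : Finset V, T.card = 3 →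
    ∀ Δ, D.IsSide T Δ → Disjoint Δ Γ → D.IsConvexSide T Δ

/-- The induced drawing `D[J]` of the complete subgraph with vertex set `J`. -/
def restrict (J : Finset V) : GoodDrawing J where
  pt v := D.pt v
  arc u v := D.arc u v
  pt_inj _ _ h := Subtype.ext (D.pt_inj h)
  arc_comm u v := D.arc_comm u v
  isArc u v h := D.isArc u v (fun e => h (Subtype.ext e))
  avoid u v w h1 h2 h3 :=
    D.avoid u v w (fun e => h1 (Subtype.ext e)) (fun e => h2 (Subtype.ext e))
      (fun e => h3 (Subtype.ext e))
  adjacent u v w h1 h2 h3 :=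
    D.adjacent u v w (fun e => h1 (Subtype.ext e)) (fun e => h2 (Subtype.ext e))
      (fun e => h3 (Subtype.ext e))
  once a b c d h1 h2 h3 h4 h5 h6 :=
    D.once a b c d (fun e => h1 (Subtype.ext e)) (fun e => h2 (Subtype.ext e))
      (fun e => h3 (Subtype.ext e)) (fun e => h4 (Subtype.ext e)) (fun e => h5 (Subtype.ext e))
      (fun e => h6 (Subtype.ext e))
  transversal a b c d h1 h2 h3 h4 h5 h6 :=
    D.transversal a b c d (fun e => h1 (Subtype.ext e)) (fun e => h2 (Subtype.ext e))
      (fun e => h3 (Subtype.ext e)) (fun e => h4 (Subtype.ext e)) (fun e => h5 (Subtype.ext e))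
      (fun e => h6 (Subtype.ext e))

end GoodDrawing

end Pool.Agent.H858FC
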