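import Pool.Agent.H858FC.GeoConvex

set_option autoImplicit false

namespace Pool.Agent.H858FC

/-- integer coordinates of the nine directions -/
def Q : Fin 9 → Fin 3 → ℤ := ![![-1, 2, 0], ![-1, -2, 2], ![2, 1, 0], ![2, 1, 1], ![1, -1, -1], ![1, -1, -2], ![-1, 0, -1], ![-1, 2, -1], ![2, 0, 1]]
/-- for each deleted vertex a direction in the face that shows that the rest is f-convex -/
def R : Fin 9 → Fin 3 → ℤ := ![![-3, -2, 2], ![-2, 1, 2], ![-1, -3, 3], ![2, -1, 1], ![0, -1, -1], ![-3, -3, -2], ![-1, -1, 1], ![-3, -2, 2], ![-2, 1, 2]]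

def dz (u v w : Fin 3 → ℤ) : ℤ :=
  u 0 * (v 1 * w 2 - v 2 * w 1) - u 1 * (v 0 * w 2 - v 2 * w 0) + u 2 * (v 0 * w 1 - v 1 * w 0)

noncomputable def vec (q : Fin 3 → ℤ) : E3 := !₂[(q 0 : ℝ), (q 1 : ℝ), (q 2 : ℝ)]

@[simp] theorem vec0 (q : Fin 3 → ℤ) : vec q 0 = (q 0 : ℝ) := rfl
@[simp] theorem vec1 (q : Fin 3 → ℤ) : vec q 1 = (q 1 : ℝ) := rfl
@[simp] theorem vec2 (q : Fin 3 → ℤ) : vec q 2 = (q 2 : ℝ) := rfl

theorem dt_vec (u v w : Fin 3 → ℤ) : dt (vec u) (vec v) (vec w) = (dz u v w : ℤ) := by
  simp only [dt, dz, vec0, vec1, vec2]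
  push_cast
  ring

noncomputable def P (i : Fin 9) : E3 := vec (Q i)

theorem dtP (a b c : Fin 9) : dt (P a) (P b) (P c) = (dz (Q a) (Q b) (Q c) : ℤ) := dt_vec _ _ _

/-- normal vectors -/
def nz (a b : Fin 9) : Fin 3 → ℤ :=
  ![Q a 1 * Q b 2 - Q a 2 * Q b 1, Q a 2 * Q b 0 - Q a 0 * Q b 2, Q a 0 * Q b 1 - Q a 1 * Q b 0]

noncomputable def lin (a b : Fin 9) (X Y Z : ℝ) : ℝ :=
  (nz a b 0 : ℝ) * X + (nz a b 1 : ℝ) * Y + (nz a b 2 : ℝ) * Z

theorem dt_lin (a b : Fin 9) (v : E3) : dt (P a) (P b) v = lin a b (v 0) (v 1) (v 2) := by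
  simp only [dt, lin, P, vec0, vec1, vec2, nz, Matrix.cons_val]
  push_cast
  ring

theorem lin_nonneg (a b : Fin 9) (p q r : ℤ) {X Y Z : ℝ} (h0 : nz a b 0 = p) (h1 : nz a b 1 = q)
    (h2 : nz a b 2 = r) (h : 0 ≤ (p : ℝ) * X + (q : ℝ) * Y + (r : ℝ) * Z) :
    0 ≤ lin a b X Y Z := by
  unfold lin
  rw [h0, h1, h2]
  exact h

/-- `x` is beyond the edge `ab` of the triangle `abc` -/
def bad (a b c x : Fin 9) : Prop :=
  a ≠ b ∧ a ≠ c ∧ b ≠ c ∧ x ≠ c ∧ 0 < dz (Q a) (Q b) (Q c) ∧ dz (Q a) (Q b) (Q x) < 0 ∧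
    0 < dz (Q b) (Q c) (Q x) ∧ 0 < dz (Q c) (Q a) (Q x)

instance (a b c x : Fin 9) : Decidable (bad a b c x) := by
  unfold bad; infer_instance

/-- every direction is in one of the triangles with a vertex beyond exactly one edge -/
theorem cover (X Y Z : ℝ) : ∃ a b c x : Fin 9, bad a b c x ∧
    0 ≤ lin a b X Y Z ∧ 0 ≤ lin b c X Y Z ∧ 0 ≤ lin c a X Y Z := by
  rcases le_total 0 X with hX | hX <;> rcases le_total 0 Y with hY | hY <;>
    rcases le_total 0 Z with hZ | hZ
  · rcases le_total 0 ((1 : ℝ) * X + (0 : ℝ) * Y + (-2 : ℝ) * Z) with h4 | h4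
    · exact ⟨4, 0, 8, 5, by decide,
        lin_nonneg 4 0 (2) (1) (1) (by decide) (by decide) (by decide) (by push_cast; linarith),
        lin_nonneg 0 8 (2) (1) (-4) (by decide) (by decide) (by decide) (by push_cast; linarith),
        lin_nonneg 8 4 (1) (3) (-2) (by decide) (by decide) (by decide) (by push_cast; linarith)⟩
    · exact ⟨8, 7, 1, 2, by decide,
        lin_nonneg 8 7 (-2) (1) (4) (by decide) (by decide) (by decide) (by push_cast; linarith),
        lin_nonneg 7 1 (2) (3) (4) (by decide) (by decide) (by decide) (by push_cast; linarith),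
        lin_nonneg 1 8 (-2) (5) (4) (by decide) (by decide) (by decide) (by push_cast; linarith)⟩
  · exact ⟨8, 6, 0, 4, by decide,
      lin_nonneg 8 6 (0) (1) (0) (by decide) (by decide) (by decide) (by push_cast; linarith),
      lin_nonneg 6 0 (2) (1) (-2) (by decide) (by decide) (by decide) (by push_cast; linarith),
      lin_nonneg 0 8 (2) (1) (-4) (by decide) (by decide) (by decide) (by push_cast; linarith)⟩
  · rcases le_total 0 ((-2 : ℝ) * X + (4 : ℝ) * Y + (3 : ℝ) * Z) with h4 | h4
    · exact ⟨1, 2, 0, 8, by decide,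
        lin_nonneg 1 2 (-2) (4) (3) (by decide) (by decide) (by decide) (by push_cast; linarith),
        lin_nonneg 2 0 (0) (0) (5) (by decide) (by decide) (by decide) (by push_cast; linarith),
        lin_nonneg 0 1 (4) (2) (4) (by decide) (by decide) (by decide) (by push_cast; linarith)⟩
    · exact ⟨2, 1, 5, 3, by decide,
        lin_nonneg 2 1 (2) (-4) (-3) (by decide) (by decide) (by decide) (by push_cast; linarith),
        lin_nonneg 1 5 (6) (0) (3) (by decide) (by decide) (by decide) (by push_cast; linarith),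
        lin_nonneg 5 2 (2) (-4) (3) (by decide) (by decide) (by decide) (by push_cast; linarith)⟩
  · rcases le_total 0 ((1 : ℝ) * X + (3 : ℝ) * Y + (-1 : ℝ) * Z) with h4 | h4
    · exact ⟨6, 8, 4, 0, by decide,
        lin_nonneg 6 8 (0) (-1) (0) (by decide) (by decide) (by decide) (by push_cast; linarith),
        lin_nonneg 8 4 (1) (3) (-2) (by decide) (by decide) (by decide) (by push_cast; linarith),
        lin_nonneg 4 6 (1) (2) (-1) (by decide) (by decide) (by decide) (by push_cast; linarith)⟩
    · rcases le_total 0 ((2 : ℝ) * X + (0 : ℝ) * Y + (1 : ℝ) * Z) with h6 | h6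
      · exact ⟨2, 1, 5, 3, by decide,
          lin_nonneg 2 1 (2) (-4) (-3) (by decide) (by decide) (by decide) (by push_cast; linarith),
          lin_nonneg 1 5 (6) (0) (3) (by decide) (by decide) (by decide) (by push_cast; linarith),
          lin_nonneg 5 2 (2) (-4) (3) (by decide) (by decide) (by decide) (by push_cast; linarith)⟩
      · exact ⟨5, 1, 6, 4, by decide,
          lin_nonneg 5 1 (-6) (0) (-3) (by decide) (by decide) (by decide) (by push_cast; linarith),
          lin_nonneg 1 6 (2) (-3) (-2) (by decide) (by decide) (by decide) (by push_cast; linarith),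
          lin_nonneg 6 5 (-1) (-3) (1) (by decide) (by decide) (by decide) (by push_cast; linarith)⟩
  · rcases le_total 0 ((2 : ℝ) * X + (1 : ℝ) * Y + (2 : ℝ) * Z) with h4 | h4
    · exact ⟨1, 2, 0, 8, by decide,
        lin_nonneg 1 2 (-2) (4) (3) (by decide) (by decide) (by decide) (by push_cast; linarith),
        lin_nonneg 2 0 (0) (0) (5) (by decide) (by decide) (by decide) (by push_cast; linarith),
        lin_nonneg 0 1 (4) (2) (4) (by decide) (by decide) (by decide) (by push_cast; linarith)⟩
    · exact ⟨0, 6, 1, 7, by decide,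
        lin_nonneg 0 6 (-2) (-1) (2) (by decide) (by decide) (by decide) (by push_cast; linarith),
        lin_nonneg 6 1 (-2) (3) (2) (by decide) (by decide) (by decide) (by push_cast; linarith),
        lin_nonneg 1 0 (-4) (-2) (-4) (by decide) (by decide) (by decide) (by push_cast; linarith)⟩
  · rcases le_total 0 ((-2 : ℝ) * X + (-1 : ℝ) * Y + (2 : ℝ) * Z) with h4 | h4
    · exact ⟨0, 6, 1, 7, by decide,
        lin_nonneg 0 6 (-2) (-1) (2) (by decide) (by decide) (by decide) (by push_cast; linarith),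
        lin_nonneg 6 1 (-2) (3) (2) (by decide) (by decide) (by decide) (by push_cast; linarith),
        lin_nonneg 1 0 (-4) (-2) (-4) (by decide) (by decide) (by decide) (by push_cast; linarith)⟩
    · exact ⟨8, 6, 0, 4, by decide,
        lin_nonneg 8 6 (0) (1) (0) (by decide) (by decide) (by decide) (by push_cast; linarith),
        lin_nonneg 6 0 (2) (1) (-2) (by decide) (by decide) (by decide) (by push_cast; linarith),
        lin_nonneg 0 8 (2) (1) (-4) (by decide) (by decide) (by decide) (by push_cast; linarith)⟩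
  · rcases le_total 0 ((-2 : ℝ) * X + (4 : ℝ) * Y + (-3 : ℝ) * Z) with h4 | h4
    · exact ⟨0, 6, 1, 7, by decide,
        lin_nonneg 0 6 (-2) (-1) (2) (by decide) (by decide) (by decide) (by push_cast; linarith),
        lin_nonneg 6 1 (-2) (3) (2) (by decide) (by decide) (by decide) (by push_cast; linarith),
        lin_nonneg 1 0 (-4) (-2) (-4) (by decide) (by decide) (by decide) (by push_cast; linarith)⟩
    · rcases le_total 0 ((3 : ℝ) * X + (2 : ℝ) * Y + (1 : ℝ) * Z) with h6 | h6
      · exact ⟨1, 2, 0, 8, by decide,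
          lin_nonneg 1 2 (-2) (4) (3) (by decide) (by decide) (by decide) (by push_cast; linarith),
          lin_nonneg 2 0 (0) (0) (5) (by decide) (by decide) (by decide) (by push_cast; linarith),
          lin_nonneg 0 1 (4) (2) (4) (by decide) (by decide) (by decide) (by push_cast; linarith)⟩
      · rcases le_total 0 ((2 : ℝ) * X + (0 : ℝ) * Y + (1 : ℝ) * Z) with h8 | h8
        · rcases le_total 0 ((-2 : ℝ) * X + (4 : ℝ) * Y + (3 : ℝ) * Z) with h10 | h10
          · exact ⟨1, 2, 0, 8, by decide,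
              lin_nonneg 1 2 (-2) (4) (3) (by decide) (by decide) (by decide) (by push_cast; linarith),
              lin_nonneg 2 0 (0) (0) (5) (by decide) (by decide) (by decide) (by push_cast; linarith),
              lin_nonneg 0 1 (4) (2) (4) (by decide) (by decide) (by decide) (by push_cast; linarith)⟩
          · exact ⟨2, 1, 5, 3, by decide,
              lin_nonneg 2 1 (2) (-4) (-3) (by decide) (by decide) (by decide) (by push_cast; linarith),
              lin_nonneg 1 5 (6) (0) (3) (by decide) (by decide) (by decide) (by push_cast; linarith),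
              lin_nonneg 5 2 (2) (-4) (3) (by decide) (by decide) (by decide) (by push_cast; linarith)⟩
        · rcases le_total 0 ((-2 : ℝ) * X + (-3 : ℝ) * Y + (-4 : ℝ) * Z) with h10 | h10
          · rcases le_total 0 ((2 : ℝ) * X + (-3 : ℝ) * Y + (-2 : ℝ) * Z) with h12 | h12
            · exact ⟨6, 4, 1, 5, by decide,
                lin_nonneg 6 4 (-1) (-2) (1) (by decide) (by decide) (by decide) (by push_cast; linarith),
                lin_nonneg 4 1 (-4) (-1) (-3) (by decide) (by decide) (by decide) (by push_cast; linarith),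
                lin_nonneg 1 6 (2) (-3) (-2) (by decide) (by decide) (by decide) (by push_cast; linarith)⟩
            · exact ⟨0, 6, 1, 7, by decide,
                lin_nonneg 0 6 (-2) (-1) (2) (by decide) (by decide) (by decide) (by push_cast; linarith),
                lin_nonneg 6 1 (-2) (3) (2) (by decide) (by decide) (by decide) (by push_cast; linarith),
                lin_nonneg 1 0 (-4) (-2) (-4) (by decide) (by decide) (by decide) (by push_cast; linarith)⟩
          · exact ⟨1, 2, 7, 8, by decide,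
              lin_nonneg 1 2 (-2) (4) (3) (by decide) (by decide) (by decide) (by push_cast; linarith),
              lin_nonneg 2 7 (-1) (2) (5) (by decide) (by decide) (by decide) (by push_cast; linarith),
              lin_nonneg 7 1 (2) (3) (4) (by decide) (by decide) (by decide) (by push_cast; linarith)⟩
  · rcases le_total 0 ((2 : ℝ) * X + (-3 : ℝ) * Y + (-2 : ℝ) * Z) with h4 | h4
    · rcases le_total 0 ((1 : ℝ) * X + (2 : ℝ) * Y + (-1 : ℝ) * Z) with h6 | h6
      · exact ⟨0, 4, 6, 2, by decide,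
          lin_nonneg 0 4 (-2) (-1) (-1) (by decide) (by decide) (by decide) (by push_cast; linarith),
          lin_nonneg 4 6 (1) (2) (-1) (by decide) (by decide) (by decide) (by push_cast; linarith),
          lin_nonneg 6 0 (2) (1) (-2) (by decide) (by decide) (by decide) (by push_cast; linarith)⟩
      · exact ⟨6, 4, 1, 5, by decide,
          lin_nonneg 6 4 (-1) (-2) (1) (by decide) (by decide) (by decide) (by push_cast; linarith),
          lin_nonneg 4 1 (-4) (-1) (-3) (by decide) (by decide) (by decide) (by push_cast; linarith),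
          lin_nonneg 1 6 (2) (-3) (-2) (by decide) (by decide) (by decide) (by push_cast; linarith)⟩
    · exact ⟨0, 6, 1, 7, by decide,
        lin_nonneg 0 6 (-2) (-1) (2) (by decide) (by decide) (by decide) (by push_cast; linarith),
        lin_nonneg 6 1 (-2) (3) (2) (by decide) (by decide) (by decide) (by push_cast; linarith),
        lin_nonneg 1 0 (-4) (-2) (-4) (by decide) (by decide) (by decide) (by push_cast; linarith)⟩

theorem gen : Gen P := by
  constructor
  · intro a b c hab hac hbc
    rw [dtP]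
    have : ∀ a b c : Fin 9, a ≠ b → a ≠ c → b ≠ c → dz (Q a) (Q b) (Q c) ≠ 0 := by
      decide +kernel
    exact_mod_cast this a b c hab hac hbc
  · decide

/-- The drawing of `K_9`. -/
noncomputable def D9 : GoodDrawing (Fin 9) := geo P gen

theorem D9_hconvex : D9.IsHConvex := geo_isHConvex gen

theorem D9_not_fconvex : ¬ D9.IsFConvex := by
  apply geo_not_fconvex gen
  intro v
  obtain ⟨a, b, c, x, ⟨h1, h2, h3, h4, h5, h6, h7, h8⟩, k1, k2, k3⟩ := cover (v 0) (v 1) (v 2)
  refine ⟨a, b, c, x, h1, h2, h3, h4, ?_, ?_, ?_, ?_, ?_, ?_, ?_⟩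
  · rw [dtP]; exact_mod_cast h5
  · rw [dtP]; exact_mod_cast h6
  · rw [dtP]; exact_mod_cast h7
  · rw [dtP]; exact_mod_cast h8
  · rw [dt_lin]; exact k1
  · rw [dt_lin]; exact k2
  · rw [dt_lin]; exact k3

/-- genericity of the directions `R i` -/
theorem R_gen : ∀ i a b : Fin 9, a ≠ i → b ≠ i → a ≠ b → dz (Q a) (Q b) (R i) ≠ 0 := by
  decide +kernel

/-- number of positive signs -/
def pos3 (a b c x : Fin 9) : ℕ :=
  (if 0 < dz (Q a) (Q b) (Q x) then 1 else 0) + (if 0 < dz (Q b) (Q c) (Q x) then 1 else 0) +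
    (if 0 < dz (Q c) (Q a) (Q x) then 1 else 0)

theorem R_ok : ∀ i a b c : Fin 9, a ≠ i → b ≠ i → c ≠ i → a ≠ b → a ≠ c → b ≠ c →
    0 < dz (Q a) (Q b) (Q c) →
    0 < dz (Q a) (Q b) (R i) → 0 < dz (Q b) (Q c) (R i) → 0 < dz (Q c) (Q a) (R i) →
    ∀ x : Fin 9, x ≠ i → pos3 a b c x ≠ 2 := by
  decide +kernel

theorem D9_sub (J : Finset (Fin 9)) (hJ : J.card = 8) : (D9.restrict J).IsFConvex := by
  -- the missing vertex
  have hc : Jᶜ.card = 1 := by
    rw [Finset.card_compl, hJ]; rfl
  obtain ⟨i, hi⟩ := Finset.card_eq_one.1 hc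
  have hmem : ∀ x : J, (x : Fin 9) ≠ i := by
    intro x hx
    have h1 : i ∈ Jᶜ := by rw [hi]; exact Finset.mem_singleton_self i
    rw [← hx] at h1
    exact (Finset.mem_compl.1 h1) x.2
  have hgen : Gen (fun v : J => P v) := by
    constructor
    · intro a b c hab hac hbc
      exact gen.gen a b c (fun e => hab (Subtype.ext e)) (fun e => hac (Subtype.ext e))
        (fun e => hbc (Subtype.ext e))
    · intro a b
      have h2 : 2 < Fintype.card J := by
        rw [Fintype.card_coe, hJ]; norm_num
      have h3 : ({a, b} : Finset J).card < Fintype.card J :=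
        lt_of_le_of_lt Finset.card_le_two h2
      obtain ⟨c, hc⟩ := Finset.exists_mem_notMem_of_card_lt_card (s := {a, b}) (t := Finset.univ)
        (by rw [Finset.card_univ]; exact h3)
      have hc2 := hc.2
      simp only [Finset.mem_insert, Finset.mem_singleton, not_or] at hc2
      exact ⟨c, fun e => hc2.1 e.symm, fun e => hc2.2 e.symm⟩
  have hres : D9.restrict J = geo (fun v : J => P v) hgen := rfl
  rw [hres]
  have hPR : ∀ a b : Fin 9, dt (P a) (P b) (vec (R i)) = (dz (Q a) (Q b) (R i) : ℤ) :=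
    fun a b => dt_vec _ _ _
  apply geo_fconvex hgen (vec (R i))
  · intro a b hab
    simp only [hPR]
    exact_mod_cast R_gen i a b (hmem a) (hmem b) (fun e => hab (Subtype.ext e))
  · intro a b c hab hac hbc hd h1 h2 h3 x y _ hx hy
    simp only [hPR] at h1 h2 h3
    simp only [dtP] at hd hx hy ⊢
    have g : ∀ w : J, pos3 a b c w ≠ 2 := fun w =>
      R_ok i a b c (hmem a) (hmem b) (hmem c) (fun e => hab (Subtype.ext e))
        (fun e => hac (Subtype.ext e)) (fun e => hbc (Subtype.ext e))
        (by exact_mod_cast hd) (by exact_mod_cast h1) (by exact_mod_cast h2)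
        (by exact_mod_cast h3) w (hmem w)
    have gx := g x
    have gy := g y
    norm_cast at hx hy ⊢
    unfold pos3 at gx gy
    by_cases x1 : 0 < dz (Q a) (Q b) (Q x) <;> by_cases x2 : 0 < dz (Q b) (Q c) (Q x) <;>
      by_cases x3 : 0 < dz (Q c) (Q a) (Q x) <;> by_cases y1 : 0 < dz (Q a) (Q b) (Q y) <;>
      by_cases y2 : 0 < dz (Q b) (Q c) (Q y) <;> by_cases y3 : 0 < dz (Q c) (Q a) (Q y) <;>
      simp only [x1, x2, x3, y1, y2, y3, if_true, if_false, ne_eq, not_true_eq_false,
        reduceCtorEq, not_false_eq_true, add_zero, zero_add] at gx gy <;> omega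

end Pool.Agent.H858FC
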