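import Pool.Agent.H858FC.Triangle

set_option autoImplicit false

namespace Pool.Agent.H858FC

open Set

variable {V : Type} {P : V → E3}

theorem geo_image_triple [DecidableEq V] (h : Gen P) {a b c : V} (hab : a ≠ b) (hac : a ≠ c) (hbc : b ≠ c) :
    (geo P h).image (({a, b, c} : Finset V) : Set V) = TBd (P a) (P b) (P c) := by
  ext z
  simp only [GoodDrawing.image, mem_ofPred_eq, TBd, mem_union, Finset.coe_insert,
    Finset.coe_singleton, mem_insert_iff, mem_singleton_iff]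
  constructor
  · rintro ⟨u, hu, v, hv, huv, hz⟩
    have hz' : z ∈ cone (P u) (P v) := hz
    rcases hu with rfl | rfl | rfl <;> rcases hv with rfl | rfl | rfl
    · exact absurd rfl huv
    · exact Or.inl (Or.inl hz')
    · exact Or.inr (by rw [cone_comm]; exact hz')
    · exact Or.inl (Or.inl (by rw [cone_comm]; exact hz'))
    · exact absurd rfl huv
    · exact Or.inl (Or.inr hz')
    · exact Or.inr hz'
    · exact Or.inl (Or.inr (by rw [cone_comm]; exact hz'))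
    · exact absurd rfl huv
  · rintro ((hz | hz) | hz)
    · exact ⟨a, Or.inl rfl, b, Or.inr (Or.inl rfl), hab, hz⟩
    · exact ⟨b, Or.inr (Or.inl rfl), c, Or.inr (Or.inr rfl), hbc, hz⟩
    · exact ⟨c, Or.inr (Or.inr rfl), a, Or.inl rfl, hac.symm, hz⟩

theorem exists_orient [DecidableEq V] (h : Gen P) (T : Finset V) (hT : T.card = 3) :
    ∃ a b c : V, a ≠ b ∧ a ≠ c ∧ b ≠ c ∧ T = {a, b, c} ∧ 0 < dt (P a) (P b) (P c) := by
  obtain ⟨a, b, c, hab, hac, hbc, rfl⟩ := Finset.card_eq_three.1 hT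
  rcases lt_or_gt_of_ne (h.gen a b c hab hac hbc) with h1 | h1
  · refine ⟨a, c, b, hac, hab, hbc.symm, ?_, ?_⟩
    · ext x; simp only [Finset.mem_insert, Finset.mem_singleton]; tauto
    · rw [dt_swap']; linarith
  · exact ⟨a, b, c, hab, hac, hbc, rfl, h1⟩

theorem geo_isSide_iff [DecidableEq V] (h : Gen P) {a b c : V} (hab : a ≠ b) (hac : a ≠ c) (hbc : b ≠ c)
    (hd : 0 < dt (P a) (P b) (P c)) (Δ : Set S2) :
    (geo P h).IsSide {a, b, c} Δ ↔ Δ = TCl (P a) (P b) (P c) ∨ Δ = TExtCl (P a) (P b) (P c) := by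
  unfold GoodDrawing.IsSide
  rw [geo_image_triple h hab hac hbc]
  constructor
  · rintro ⟨C, hC, rfl⟩
    rw [isComponent_iff hd] at hC
    rcases hC with rfl | rfl
    · left; exact closure_TInt hd
    · right; exact closure_TExt hd
  · rintro (rfl | rfl)
    · exact ⟨_, (isComponent_iff hd _).2 (Or.inl rfl), (closure_TInt hd).symm⟩
    · exact ⟨_, (isComponent_iff hd _).2 (Or.inr rfl), (closure_TExt hd).symm⟩

theorem geo_convexSide [DecidableEq V] (h : Gen P) {a b c : V} (hab : a ≠ b) (hac : a ≠ c) (hbc : b ≠ c)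
    (hd : 0 < dt (P a) (P b) (P c)) :
    (geo P h).IsConvexSide {a, b, c} (TCl (P a) (P b) (P c)) :=
  ⟨(geo_isSide_iff h hab hac hbc hd _).2 (Or.inl rfl), fun x y _ hx hy =>
    cone_subset_TCl hx hy (h.ne_zero x) (h.ne_zero y)⟩

theorem geo_isConvex [DecidableEq V] (h : Gen P) : (geo P h).IsConvex := by
  intro T hT
  obtain ⟨a, b, c, hab, hac, hbc, rfl, hd⟩ := exists_orient h T hT
  exact ⟨_, geo_convexSide h hab hac hbc hd⟩

theorem pt_mem_image [DecidableEq V] (h : Gen P) {a b c : V} (hab : a ≠ b) (hac : a ≠ c) (hbc : b ≠ c) :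
    toS (P a) ∈ (geo P h).image (({a, b, c} : Finset V) : Set V) ∧
    toS (P b) ∈ (geo P h).image (({a, b, c} : Finset V) : Set V) ∧
    toS (P c) ∈ (geo P h).image (({a, b, c} : Finset V) : Set V) := by
  rw [geo_image_triple h hab hac hbc]
  exact ⟨Or.inl (Or.inl (mem_cone_left (h.ne_zero a))),
    Or.inl (Or.inr (mem_cone_left (h.ne_zero b))), Or.inr (mem_cone_left (h.ne_zero c))⟩

theorem TCl_subset {a b c a' b' c' : E3} (ha' : a' ≠ 0) (hb' : b' ≠ 0)
    (hc' : c' ≠ 0) (h' : 0 < dt a' b' c') (h1 : toS a' ∈ TCl a b c) (h2 : toS b' ∈ TCl a b c)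
    (h3 : toS c' ∈ TCl a b c) : TCl a' b' c' ⊆ TCl a b c := by
  rintro z ⟨k1, k2, k3⟩
  have e := cramer a' b' c' z
  obtain ⟨p1, p2, p3⟩ := h1
  obtain ⟨q1, q2, q3⟩ := h2
  obtain ⟨r1, r2, r3⟩ := h3
  rw [dt_toS_nonneg _ _ ha'] at p1 p2 p3
  rw [dt_toS_nonneg _ _ hb'] at q1 q2 q3
  rw [dt_toS_nonneg _ _ hc'] at r1 r2 r3
  have key : ∀ x y : E3, 0 ≤ dt x y a' → 0 ≤ dt x y b' → 0 ≤ dt x y c' → 0 ≤ dt x y z := by
    intro x y hx hy hz
    have e' : dt a' b' c' * dt x y z =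
        dt b' c' z * dt x y a' + dt c' a' z * dt x y b' + dt a' b' z * dt x y c' := by
      have := congrArg (dt x y) e
      simpa only [dt_add, dt_smul] using this
    have : 0 ≤ dt a' b' c' * dt x y z := by rw [e']; positivity
    exact nonneg_of_mul_nonneg_right this h'
  exact ⟨key _ _ p1 q1 r1, key _ _ p2 q2 r2, key _ _ p3 q3 r3⟩

theorem not_TExtCl_subset {a b c a' b' c' : E3} (h : 0 < dt a b c) (ha' : a' ≠ 0) (hb' : b' ≠ 0)
    (hc' : c' ≠ 0) (h' : 0 < dt a' b' c') (h1 : toS a' ∈ TCl a b c) (h2 : toS b' ∈ TCl a b c)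
    (h3 : toS c' ∈ TCl a b c) : ¬ TExtCl a' b' c' ⊆ TCl a b c := by
  intro hsub
  obtain ⟨p1, p2, p3⟩ := h1
  obtain ⟨q1, q2, q3⟩ := h2
  obtain ⟨r1, r2, r3⟩ := h3
  rw [dt_toS_nonneg _ _ ha'] at p1 p2 p3
  rw [dt_toS_nonneg _ _ hb'] at q1 q2 q3
  rw [dt_toS_nonneg _ _ hc'] at r1 r2 r3
  have hs : a' + b' + c' ≠ 0 := sum_ne_zero h'
  have hm : toS (-(a' + b' + c')) ∈ TExtCl a' b' c' := Or.inl (anticenter_dt h').1.le
  obtain ⟨m1, m2, m3⟩ := hsub hm
  have hne : -(a' + b' + c') ≠ 0 := neg_ne_zero.2 hs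
  rw [dt_toS_nonneg _ _ hne, dt_neg, dt_add, dt_add] at m1 m2 m3
  apply hs
  apply eq_of_dt (a := a) (b := b) (c := c) h.ne'
  · rw [dt_add, dt_add, dt_zero]; linarith
  · rw [dt_add, dt_add, dt_zero]; linarith
  · rw [dt_add, dt_add, dt_zero]; linarith

theorem geo_isHConvex [DecidableEq V] (h : Gen P) : (geo P h).IsHConvex := by
  classical
  choose fa fb fc hab hac hbc hT hd using exists_orient h
  refine ⟨fun T => if hc : T.card = 3 then TCl (P (fa T hc)) (P (fb T hc)) (P (fc T hc)) else ∅,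
    ?_, ?_⟩
  · intro T hc
    simp only [dif_pos hc]
    have := geo_convexSide h (hab T hc) (hac T hc) (hbc T hc) (hd T hc)
    rw [← hT T hc] at this
    exact this
  · intro T T' hc hc' hsub
    simp only [dif_pos hc] at hsub ⊢
    obtain ⟨m1, m2, m3⟩ := pt_mem_image h (hab T' hc') (hac T' hc') (hbc T' hc')
    rw [← hT T' hc'] at m1 m2 m3
    have hcs := geo_convexSide h (hab T' hc') (hac T' hc') (hbc T' hc') (hd T' hc')
    rw [← hT T' hc'] at hcs
    refine ⟨⟨_, hcs.1, ?_⟩, ?_⟩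
    · exact TCl_subset (h.ne_zero _) (h.ne_zero _) (h.ne_zero _) (hd T' hc')
        (hsub m1) (hsub m2) (hsub m3)
    · intro Δ' hs hΔ
      have hs' := hs
      rw [hT T' hc', geo_isSide_iff h (hab T' hc') (hac T' hc') (hbc T' hc') (hd T' hc')] at hs'
      rcases hs' with rfl | rfl
      · exact hcs
      · exact absurd hΔ (not_TExtCl_subset (hd T hc) (h.ne_zero _) (h.ne_zero _) (h.ne_zero _)
          (hd T' hc') (hsub m1) (hsub m2) (hsub m3))

/-- Criterion for not being f-convex. -/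
theorem geo_not_fconvex [DecidableEq V] (h : Gen P)
    (cov : ∀ v : E3, ∃ a b c x : V, a ≠ b ∧ a ≠ c ∧ b ≠ c ∧ x ≠ c ∧
      0 < dt (P a) (P b) (P c) ∧ dt (P a) (P b) (P x) < 0 ∧ 0 < dt (P b) (P c) (P x) ∧
      0 < dt (P c) (P a) (P x) ∧ 0 ≤ dt (P a) (P b) v ∧ 0 ≤ dt (P b) (P c) v ∧
      0 ≤ dt (P c) (P a) v) : ¬ (geo P h).IsFConvex := by
  rintro ⟨-, Γ, ⟨p, hp, rfl⟩, hΓ⟩
  obtain ⟨a, b, c, x, hab, hac, hbc, hxc, hd, hx1, hx2, hx3, v1, v2, v3⟩ := cov p
  -- p is not on the boundary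
  have hsub : (geo P h).image (({a, b, c} : Finset V) : Set V) ⊆ (geo P h).image Set.univ := by
    rintro z ⟨u, _, w, _, huw, hz⟩
    exact ⟨u, trivial, w, trivial, huw, hz⟩
  have hp' : p ∈ (TBd (P a) (P b) (P c))ᶜ := by
    rw [← geo_image_triple h hab hac hbc]
    exact fun hq => hp (hsub hq)
  have hX := compl_TBd hd
  have hpi : p ∈ TInt (P a) (P b) (P c) := by
    have := hp'
    rw [hX] at this
    rcases this with h1 | h1
    · exact h1
    · rcases h1 with h1 | h1 | h1 <;> linarith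
  have hside : (geo P h).IsSide {a, b, c} (TExtCl (P a) (P b) (P c)) :=
    (geo_isSide_iff h hab hac hbc hd _).2 (Or.inr rfl)
  have hdis : Disjoint (TExtCl (P a) (P b) (P c))
      (connectedComponentIn ((geo P h).image Set.univ)ᶜ p) := by
    have h1 : connectedComponentIn ((geo P h).image Set.univ)ᶜ p ⊆ TInt (P a) (P b) (P c) := by
      have h2 : connectedComponentIn ((geo P h).image Set.univ)ᶜ p ⊆
          TInt (P a) (P b) (P c) ∪ TExt (P a) (P b) (P c) := by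
        rw [← hX, ← geo_image_triple h hab hac hbc]
        exact (connectedComponentIn_subset _ _).trans (compl_subset_compl.2 hsub)
      exact isPreconnected_connectedComponentIn.subset_left_of_subset_union
        (isOpen_TInt _ _ _) (isOpen_TExt _ _ _) (disj_int_ext _ _ _) h2
        ⟨p, mem_connectedComponentIn hp, hpi⟩
    rw [Set.disjoint_right]
    intro z hz
    obtain ⟨z1, z2, z3⟩ := h1 hz
    rintro (w | w | w) <;> linarith
  have hcard : ({a, b, c} : Finset V).card = 3 :=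
    Finset.card_eq_three.2 ⟨a, b, c, hab, hac, hbc, rfl⟩
  have hcv := (hΓ {a, b, c} hcard _ hside hdis).2 x c hxc ?_ ?_
  · exact cone_not_subset hd hx2 hx3 hcv
  · show toS (P x) ∈ _
    exact Or.inl ((dt_toS_nonpos _ _ (h.ne_zero x)).2 hx1.le)
  · show toS (P c) ∈ _
    exact Or.inr (Or.inl ((dt_toS_nonpos _ _ (h.ne_zero c)).2 (by simp)))

/-- Criterion for being f-convex. -/
theorem geo_fconvex [DecidableEq V] (h : Gen P) (v : E3)
    (gen : ∀ a b : V, a ≠ b → dt (P a) (P b) v ≠ 0)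
    (H : ∀ a b c : V, a ≠ b → a ≠ c → b ≠ c → 0 < dt (P a) (P b) (P c) →
      0 < dt (P a) (P b) v → 0 < dt (P b) (P c) v → 0 < dt (P c) (P a) v →
      ∀ x y : V, x ≠ y →
      (dt (P a) (P b) (P x) ≤ 0 ∨ dt (P b) (P c) (P x) ≤ 0 ∨ dt (P c) (P a) (P x) ≤ 0) →
      (dt (P a) (P b) (P y) ≤ 0 ∨ dt (P b) (P c) (P y) ≤ 0 ∨ dt (P c) (P a) (P y) ≤ 0) →
      (dt (P a) (P b) (P x) ≤ 0 ∧ dt (P a) (P b) (P y) ≤ 0) ∨
      (dt (P b) (P c) (P x) ≤ 0 ∧ dt (P b) (P c) (P y) ≤ 0) ∨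
      (dt (P c) (P a) (P x) ≤ 0 ∧ dt (P c) (P a) (P y) ≤ 0)) : (geo P h).IsFConvex := by
  by_cases hV : Nonempty V
  swap
  · -- vacuous: no vertices
    refine ⟨geo_isConvex h, connectedComponentIn ((geo P h).image Set.univ)ᶜ (toS 0),
      ⟨toS 0, ?_, rfl⟩, ?_⟩
    · rintro ⟨u, -⟩
      exact hV ⟨u⟩
    · intro T hT
      exfalso
      obtain ⟨a, -⟩ := Finset.card_eq_three.1 hT
      exact hV ⟨a⟩
  obtain ⟨a0⟩ := hV
  obtain ⟨b0, hab0, -⟩ := h.three a0 a0
  have hv : v ≠ 0 := by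
    rintro rfl
    exact gen a0 b0 hab0 (by simp)
  refine ⟨geo_isConvex h, connectedComponentIn ((geo P h).image Set.univ)ᶜ (toS v),
    ⟨toS v, ?_, rfl⟩, ?_⟩
  · rintro ⟨u, -, w, -, huw, hz⟩
    obtain ⟨s, t, hs, ht, e⟩ := hz
    have h1 : dt (P u) (P w) (toS v) = 0 := by rw [e]; simp
    rw [dt_toS _ _ hv] at h1
    rcases mul_eq_zero.1 h1 with h0 | h0
    · exact (inv_ne_zero (norm_ne_zero_iff.2 hv)) h0
    · exact gen u w huw h0
  · intro T hT Δ hΔ hdis
    obtain ⟨a, b, c, hab, hac, hbc, rfl, hd⟩ := exists_orient h T hT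
    have hΔ' := (geo_isSide_iff h hab hac hbc hd Δ).1 hΔ
    have hmem : toS v ∈ connectedComponentIn ((geo P h).image Set.univ)ᶜ (toS v) := by
      apply mem_connectedComponentIn
      rintro ⟨u, -, w, -, huw, hz⟩
      obtain ⟨s, t, hs, ht, e⟩ := hz
      have h1 : dt (P u) (P w) (toS v) = 0 := by rw [e]; simp
      rw [dt_toS _ _ hv] at h1
      rcases mul_eq_zero.1 h1 with h0 | h0
      · exact (inv_ne_zero (norm_ne_zero_iff.2 hv)) h0
      · exact gen u w huw h0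
    rcases hΔ' with rfl | rfl
    · exact geo_convexSide h hab hac hbc hd
    · refine ⟨hΔ, ?_⟩
      have hnot : toS v ∉ TExtCl (P a) (P b) (P c) := fun hh =>
        Set.disjoint_left.1 hdis hh hmem
      simp only [TExtCl, mem_ofPred_eq, not_or, not_le, dt_toS_pos _ _ hv] at hnot
      obtain ⟨n1, n2, n3⟩ := hnot
      intro x y hxy hx hy
      have hx' : toS (P x) ∈ TExtCl (P a) (P b) (P c) := hx
      have hy' : toS (P y) ∈ TExtCl (P a) (P b) (P c) := hy
      simp only [TExtCl, mem_ofPred_eq, dt_toS_nonpos _ _ (h.ne_zero x)] at hx'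
      simp only [TExtCl, mem_ofPred_eq, dt_toS_nonpos _ _ (h.ne_zero y)] at hy'
      exact cone_subset_TExtCl (H a b c hab hac hbc hd n1 n2 n3 x y hxy hx' hy')

/-- induced subdrawings of geodesic drawings are geodesic -/
theorem geo_restrict (h : Gen P) (J : Finset V) (h' : Gen (fun v : J => P v)) :
    (geo P h).restrict J = geo (fun v : J => P v) h' := rfl

end Pool.Agent.H858FC
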