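import Pool.Agent.H858FC.Sphere

set_option autoImplicit false

namespace Pool.Agent.H858FC

open Set

/-- the shortest great circle arc between the directions of `u` and `v` -/
def cone (u v : E3) : Set S2 := {z | ∃ s t : ℝ, 0 ≤ s ∧ 0 ≤ t ∧ (z : E3) = s • u + t • v}

theorem cone_comm (u v : E3) : cone u v = cone v u := by
  ext z
  constructor
  · rintro ⟨s, t, hs, ht, h⟩
    exact ⟨t, s, ht, hs, by rw [h, add_comm]⟩
  · rintro ⟨s, t, hs, ht, h⟩
    exact ⟨t, s, ht, hs, by rw [h, add_comm]⟩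

theorem cone_iff' {a b c : E3} (h : dt a b c ≠ 0) (z : S2) :
    z ∈ cone a b ↔ dt a b z = 0 ∧ 0 ≤ dt a b c * dt b c z ∧ 0 ≤ dt a b c * dt c a z := by
  constructor
  · rintro ⟨s, t, hs, ht, e⟩
    have h1 : dt a b z = 0 := by rw [e]; simp
    have h2 : dt b c z = s * dt a b c := by
      rw [e]; simp [dt_cyc a b c]
    have h3 : dt c a z = t * dt a b c := by
      rw [e]; simp [dt_cyc c a b]
    refine ⟨h1, ?_, ?_⟩
    · rw [h2]
      have : dt a b c * (s * dt a b c) = s * (dt a b c)^2 := by ring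
      rw [this]; positivity
    · rw [h3]
      have : dt a b c * (t * dt a b c) = t * (dt a b c)^2 := by ring
      rw [this]; positivity
  · rintro ⟨h1, h2, h3⟩
    have e := cramer a b c z
    rw [h1, zero_smul, add_zero] at e
    have hD : 0 < (dt a b c)^2 := by positivity
    refine ⟨dt a b c * dt b c z / (dt a b c)^2, dt a b c * dt c a z / (dt a b c)^2,
      by positivity, by positivity, ?_⟩
    have e2 : (z : E3) = (dt a b c)⁻¹ • (dt b c z • a + dt c a z • b) := by
      rw [← e, smul_smul, inv_mul_cancel₀ h, one_smul]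
    have e3 : dt a b c * dt b c z / (dt a b c)^2 = (dt a b c)⁻¹ * dt b c z := by field_simp
    have e4 : dt a b c * dt c a z / (dt a b c)^2 = (dt a b c)⁻¹ * dt c a z := by field_simp
    rw [e3, e4, ← smul_smul, ← smul_smul, ← smul_add]
    exact e2

theorem cone_iff {a b c : E3} (h : 0 < dt a b c) (z : S2) :
    z ∈ cone a b ↔ dt a b z = 0 ∧ 0 ≤ dt b c z ∧ 0 ≤ dt c a z := by
  rw [cone_iff' h.ne', mul_nonneg_iff_of_pos_left h, mul_nonneg_iff_of_pos_left h]

theorem ne_zero_left {a b c : E3} (h : dt a b c ≠ 0) : a ≠ 0 := by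
  rintro rfl; apply h; simp [dt]

theorem ne_zero_mid {a b c : E3} (h : dt a b c ≠ 0) : b ≠ 0 := by
  rintro rfl; apply h; simp [dt]

theorem mem_cone_left {a b : E3} (ha : a ≠ 0) : toS a ∈ cone a b :=
  ⟨‖a‖⁻¹, 0, by positivity, le_refl _, by rw [toS_coe ha]; simp⟩

theorem comb_ne_zero {a b c : E3} (h : dt a b c ≠ 0) {s t : ℝ} (hst : s ≠ 0 ∨ t ≠ 0) :
    s • a + t • b ≠ 0 := by
  intro e
  have h1 : dt b c (s • a + t • b) = 0 := by rw [e]; simp
  have h2 : dt c a (s • a + t • b) = 0 := by rw [e]; simp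
  have e3 : dt c a b = dt a b c := by unfold dt; ring
  simp only [dt_add, dt_smul, dt_cyc a b c, dt_self1, dt_self2, dt_self3, mul_zero, add_zero,
    zero_add] at h1 h2
  rw [e3] at h2
  rcases hst with hs | ht
  · exact (mul_ne_zero hs h) h1
  · exact (mul_ne_zero ht h) h2

theorem isArc_cone {a b c : E3} (h : dt a b c ≠ 0) : IsArc (cone a b) (toS a) (toS b) := by
  have hne : ∀ t : unitInterval, (1 - (t : ℝ)) • a + (t : ℝ) • b ≠ 0 := by
    intro t
    apply comb_ne_zero h
    by_cases ht : (t : ℝ) = 0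
    · left; rw [ht]; simp
    · right; exact ht
  let γ : Path (toS a) (toS b) :=
    { toFun := fun t => toS ((1 - (t : ℝ)) • a + (t : ℝ) • b)
      continuous_toFun := by
        apply continuousOn_toS.comp_continuous
        · fun_prop
        · intro t; exact hne t
      source' := by simp
      target' := by simp }
  have hγ : ∀ t : unitInterval, γ t = toS ((1 - (t : ℝ)) • a + (t : ℝ) • b) := fun t => rfl
  refine ⟨γ, ?_, ?_⟩
  · intro t t' e
    rw [hγ, hγ] at e
    have e1 := congrArg (fun z : S2 => dt b c z) e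
    have e2 := congrArg (fun z : S2 => dt c a z) e
    simp only [dt_toS _ _ (hne t), dt_toS _ _ (hne t'), dt_add, dt_smul, dt_self1, dt_self2,
      dt_self3, mul_zero, add_zero, zero_add] at e1 e2
    have e3 : dt c a b = dt a b c := by unfold dt; ring
    have e4 : dt b c a = dt a b c := by unfold dt; ring
    rw [e4] at e1
    rw [e3] at e2
    have f1 : ‖(1 - (t : ℝ)) • a + (t : ℝ) • b‖⁻¹ * (1 - t) =
        ‖(1 - (t' : ℝ)) • a + (t' : ℝ) • b‖⁻¹ * (1 - t') := by
      apply mul_right_cancel₀ h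
      linarith
    have f2 : ‖(1 - (t : ℝ)) • a + (t : ℝ) • b‖⁻¹ * t =
        ‖(1 - (t' : ℝ)) • a + (t' : ℝ) • b‖⁻¹ * t' := by
      apply mul_right_cancel₀ h
      linarith
    have f3 : ‖(1 - (t : ℝ)) • a + (t : ℝ) • b‖⁻¹ =
        ‖(1 - (t' : ℝ)) • a + (t' : ℝ) • b‖⁻¹ := by linarith
    rw [f3] at f2
    have : ‖(1 - (t' : ℝ)) • a + (t' : ℝ) • b‖⁻¹ ≠ 0 :=
      inv_ne_zero (norm_ne_zero_iff.2 (hne t'))
    exact Subtype.ext (mul_left_cancel₀ this f2)
  · ext z
    constructor
    · rintro ⟨t, rfl⟩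
      rw [hγ]
      have ht0 : 0 ≤ (t : ℝ) := t.2.1
      have ht1 : (t : ℝ) ≤ 1 := t.2.2
      refine ⟨‖(1 - (t : ℝ)) • a + (t : ℝ) • b‖⁻¹ * (1 - t),
        ‖(1 - (t : ℝ)) • a + (t : ℝ) • b‖⁻¹ * t, ?_, ?_, ?_⟩
      · have : 0 ≤ 1 - (t : ℝ) := by linarith
        positivity
      · positivity
      · rw [toS_coe (hne t), smul_add, smul_smul, smul_smul]
    · rintro ⟨s, t, hs, ht, e⟩
      have hst : 0 < s + t := by
        by_contra hc
        have h1 : s = 0 := by linarith
        have h2 : t = 0 := by linarith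
        apply ne_zero_S z
        rw [e, h1, h2]; simp
      refine ⟨⟨t / (s + t), by positivity, by rw [div_le_one hst]; linarith⟩, ?_⟩
      rw [hγ, toS_eq_iff (hne _)]
      refine ⟨(s + t)⁻¹, by positivity, ?_⟩
      rw [e, smul_add, smul_smul, smul_smul]
      congr 2
      · simp only; field_simp; ring
      · simp only; field_simp

theorem cone_adjacent {a b c : E3} (h : dt a b c ≠ 0) : cone a b ∩ cone a c = {toS a} := by
  ext z
  constructor
  · rintro ⟨⟨s, t, hs, ht, e⟩, ⟨s', t', hs', ht', e'⟩⟩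
    have h1 : dt c a z = t * dt a b c := by
      rw [e]; simp
      left; unfold dt; ring
    have h2 : dt c a z = 0 := by
      rw [e']; simp
    have ht0 : t = 0 := by
      rw [h2] at h1
      rcases mul_eq_zero.1 h1.symm with h0 | h0
      · exact h0
      · exact absurd h0 h
    subst ht0
    rw [zero_smul, add_zero] at e
    have hs0 : 0 < s := by
      rcases hs.eq_or_lt with h0 | h0
      · exfalso; apply ne_zero_S z; rw [e, ← h0, zero_smul]
      · exact h0
    rw [mem_singleton_iff, eq_comm, toS_eq_iff (ne_zero_left h)]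
    exact ⟨s⁻¹, by positivity, by rw [e, smul_smul, inv_mul_cancel₀ hs0.ne', one_smul]⟩
  · rintro rfl
    exact ⟨mem_cone_left (ne_zero_left h), mem_cone_left (ne_zero_left h)⟩

theorem cone_avoid {a b c : E3} (h : dt a b c ≠ 0) : toS c ∉ cone a b := by
  rintro ⟨s, t, hs, ht, e⟩
  have hc : c ≠ 0 := by
    rintro rfl; apply h; simp
  have h1 : dt a b (toS c) = 0 := by rw [e]; simp
  rw [dt_toS a b hc] at h1
  rcases mul_eq_zero.1 h1 with h0 | h0
  · exact (inv_ne_zero (norm_ne_zero_iff.2 hc)) h0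
  · exact h h0

/-- data of a crossing point -/
theorem crossing_data {a b c d : E3} (h1 : dt c d a ≠ 0) (h2 : dt c d b ≠ 0)
    {z : S2} {s t : ℝ} (hs : 0 ≤ s) (ht : 0 ≤ t) (e : (z : E3) = s • a + t • b)
    (hz : dt c d z = 0) : 0 < s ∧ 0 < t := by
  rw [e] at hz
  simp only [dt_add, dt_smul] at hz
  constructor
  · rcases hs.eq_or_lt with h0 | h0
    · exfalso
      rw [← h0] at hz e
      simp only [zero_mul, zero_add, mul_eq_zero] at hz
      rcases hz with hz | hz
      · apply ne_zero_S z; rw [e, hz]; simp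
      · exact h2 hz
    · exact h0
  · rcases ht.eq_or_lt with h0 | h0
    · exfalso
      rw [← h0] at hz e
      simp only [zero_mul, add_zero, mul_eq_zero] at hz
      rcases hz with hz | hz
      · apply ne_zero_S z; rw [e, hz]; simp
      · exact h1 hz
    · exact h0

theorem cone_once {a b c d : E3} (h1 : dt c d a ≠ 0) (h2 : dt c d b ≠ 0) :
    (cone a b ∩ cone c d).Subsingleton := by
  rintro z ⟨⟨s, t, hs, ht, e⟩, ⟨s1, t1, hs1, ht1, e1⟩⟩ w ⟨⟨s', t', hs', ht', e'⟩, ⟨s1', t1', hs1', ht1', e1'⟩⟩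
  have hz : dt c d z = 0 := by rw [e1]; simp
  have hw : dt c d w = 0 := by rw [e1']; simp
  obtain ⟨p1, p2⟩ := crossing_data h1 h2 hs ht e hz
  obtain ⟨q1, q2⟩ := crossing_data h1 h2 hs' ht' e' hw
  rw [e] at hz
  rw [e'] at hw
  simp only [dt_add, dt_smul] at hz hw
  have key : s * t' = s' * t := by
    have : dt c d b * (s * t' - s' * t) = 0 := by
      linear_combination s * hw - s' * hz
    rcases mul_eq_zero.1 this with h0 | h0
    · exact absurd h0 h2
    · linarith
  have e3 : s • (w : E3) = s' • (z : E3) := by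
    rw [e, e', smul_add, smul_add, smul_smul, smul_smul, smul_smul, smul_smul, key, mul_comm s s']
  have : toS (s • (w : E3)) = toS (s' • (z : E3)) := by rw [e3]
  rw [toS_smul p1, toS_smul q1, toS_self, toS_self] at this
  exact this.symm

theorem cone_transversal {a b c d : E3} (h1 : dt c d a ≠ 0) (h2 : dt c d b ≠ 0)
    (h3 : dt a b c ≠ 0) (h4 : dt a b d ≠ 0) {z : S2} (hz : z ∈ cone a b ∩ cone c d) :
    IsTransversalCrossing (cone a b) (cone c d) z := by
  obtain ⟨⟨s, t, hs, ht, e⟩, ⟨s1, t1, hs1, ht1, e1⟩⟩ := hz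
  have hz : dt c d z = 0 := by rw [e1]; simp
  have hz' : dt a b z = 0 := by rw [e]; simp
  obtain ⟨p1, p2⟩ := crossing_data h1 h2 hs ht e hz
  obtain ⟨q1, q2⟩ := crossing_data h3 h4 hs1 ht1 e1 hz'
  have c1 : dt b c a = dt a b c := by unfold dt; ring
  have c2 : dt c a b = dt a b c := by unfold dt; ring
  have c3 : dt d a c = dt c d a := by unfold dt; ring
  have c4 : dt a c d = dt c d a := by unfold dt; ring
  have hD : 0 < (dt a b c)^2 := by positivity
  have hD' : 0 < (dt c d a)^2 := by positivity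
  refine transversal_aux (dtL c d) (dtL a b) ((innerSL ℝ (z : E3)) : E3 →ₗ[ℝ] ℝ) ?_ hz hz' ?_
    {w : S2 | (0 < dt a b c * dt b c w ∧ 0 < dt a b c * dt c a w) ∧
      (0 < dt c d a * dt d a w ∧ 0 < dt c d a * dt a c w)} ?_ ?_ ?_ ?_
  · intro w hw1 hw2 hw3
    have hw1' : dt c d w = 0 := hw1
    have hw2' : dt a b w = 0 := hw2
    have hw3' : inner ℝ (z : E3) w = 0 := hw3
    have ec := cramer a b c w
    rw [hw2', zero_smul, add_zero] at ec
    -- w = p a + q b
    obtain ⟨p, q, ew⟩ : ∃ p q : ℝ, w = p • a + q • b := by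
      refine ⟨(dt a b c)⁻¹ * dt b c w, (dt a b c)⁻¹ * dt c a w, ?_⟩
      rw [← smul_smul, ← smul_smul, ← smul_add, ← ec, smul_smul, inv_mul_cancel₀ h3, one_smul]
    have hw4 : p * dt c d a + q * dt c d b = 0 := by
      have := hw1'
      rw [ew] at this
      simpa using this
    have hz4 : s * dt c d a + t * dt c d b = 0 := by
      have := hz
      rw [e] at this
      simpa using this
    have key : s * q = p * t := by
      have : dt c d b * (s * q - p * t) = 0 := by
        linear_combination s * hw4 - p * hz4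
      rcases mul_eq_zero.1 this with h0 | h0
      · exact absurd h0 h2
      · linarith
    have e3 : s • w = p • (z : E3) := by
      rw [e, ew, smul_add, smul_add, smul_smul, smul_smul, smul_smul, smul_smul, key, mul_comm s p]
    have e4 : inner ℝ (z : E3) (s • w) = inner ℝ (z : E3) (p • (z : E3)) := by rw [e3]
    rw [inner_smul_right, inner_smul_right, hw3', real_inner_self_eq_norm_sq, norm_S] at e4
    have hp : p = 0 := by linarith
    rw [hp, zero_smul] at e3
    rcases smul_eq_zero.1 e3 with h0 | h0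
    · exact absurd h0 p1.ne'
    · exact h0
  · show 0 < inner ℝ (z : E3) z
    rw [real_inner_self_eq_norm_sq, norm_S]; norm_num
  · have k : ∀ (x y : E3) (r : ℝ), IsOpen {w : S2 | 0 < r * dt x y w} := by
      intro x y r
      apply isOpen_lt continuous_const
      fun_prop
    exact ((k _ _ _).inter (k _ _ _)).inter ((k _ _ _).inter (k _ _ _))
  · refine ⟨⟨?_, ?_⟩, ⟨?_, ?_⟩⟩
    · rw [e]; simp only [dt_add, dt_smul, dt_self1, dt_self2, mul_zero, add_zero, c1]
      have : dt a b c * (s * dt a b c) = s * (dt a b c)^2 := by ring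
      rw [this]; positivity
    · rw [e]; simp only [dt_add, dt_smul, dt_self1, dt_self3, mul_zero, zero_add, c2]
      have : dt a b c * (t * dt a b c) = t * (dt a b c)^2 := by ring
      rw [this]; positivity
    · rw [e1]; simp only [dt_add, dt_smul, dt_self2, mul_zero, add_zero, c3]
      have : dt c d a * (s1 * dt c d a) = s1 * (dt c d a)^2 := by ring
      rw [this]; positivity
    · rw [e1]; simp only [dt_add, dt_smul, dt_self3, mul_zero, zero_add, c4]
      have : dt c d a * (t1 * dt c d a) = t1 * (dt c d a)^2 := by ring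
      rw [this]; positivity
  · rintro w ⟨⟨u1, u2⟩, -⟩ -
    rw [cone_iff' h3]
    exact ⟨fun h => h.1, fun h => ⟨h, u1.le, u2.le⟩⟩
  · rintro w ⟨-, ⟨u1, u2⟩⟩ -
    rw [cone_iff' h1]
    exact ⟨fun h => h.1, fun h => ⟨h, u1.le, u2.le⟩⟩

/-- general position -/
structure Gen {V : Type} (P : V → E3) : Prop where
  gen : ∀ a b c, a ≠ b → a ≠ c → b ≠ c → dt (P a) (P b) (P c) ≠ 0
  three : ∀ a b : V, ∃ c, a ≠ c ∧ b ≠ c

theorem Gen.ne_zero {V : Type} {P : V → E3} (h : Gen P) (a : V) : P a ≠ 0 := by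
  obtain ⟨b, hb, -⟩ := h.three a a
  obtain ⟨c, hc1, hc2⟩ := h.three a b
  exact ne_zero_left (h.gen a b c hb hc1 hc2)

/-- The geodesic drawing given by vectors in general position. -/
noncomputable def geo {V : Type} (P : V → E3) (h : Gen P) : GoodDrawing V where
  pt v := toS (P v)
  arc u v := cone (P u) (P v)
  pt_inj := by
    intro u v e
    by_contra hne
    obtain ⟨c, hc1, hc2⟩ := h.three u v
    have h1 : toS (P v) ∈ cone (P u) (P c) := by
      have : toS (P u) ∈ cone (P u) (P c) := mem_cone_left (h.ne_zero u)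
      have e' : toS (P u) = toS (P v) := e
      rwa [e'] at this
    exact cone_avoid (h.gen u c v hc1 hne hc2.symm) h1
  arc_comm u v := cone_comm _ _
  isArc u v huv := by
    obtain ⟨c, hc1, hc2⟩ := h.three u v
    exact isArc_cone (h.gen u v c huv hc1 hc2)
  avoid u v w huv hwu hwv := cone_avoid (h.gen u v w huv hwu.symm hwv.symm)
  adjacent u v w h1 h2 h3 := cone_adjacent (h.gen u v w h1 h2 h3)
  once a b c d h1 h2 h3 h4 h5 h6 :=
    cone_once (h.gen c d a h2 h3.symm h4.symm) (h.gen c d b h2 h5.symm h6.symm)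
  transversal a b c d h1 h2 h3 h4 h5 h6 z hz :=
    cone_transversal (h.gen c d a h2 h3.symm h4.symm) (h.gen c d b h2 h5.symm h6.symm)
      (h.gen a b c h1 h3 h5) (h.gen a b d h1 h4 h6) hz

end Pool.Agent.H858FC
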