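import Pool.Agent.H858FC.Defs

set_option autoImplicit false

namespace Pool.Agent.H858FC

open Set

abbrev E3 : Type := EuclideanSpace ℝ (Fin 3)

/-- determinant -/
def dt (u v w : E3) : ℝ :=
  u 0 * (v 1 * w 2 - v 2 * w 1) - u 1 * (v 0 * w 2 - v 2 * w 0) + u 2 * (v 0 * w 1 - v 1 * w 0)

theorem dt_cyc (a b c : E3) : dt b c a = dt a b c := by unfold dt; ring
theorem dt_swap (a b c : E3) : dt b a c = - dt a b c := by unfold dt; ring
theorem dt_swap' (a b c : E3) : dt a c b = - dt a b c := by unfold dt; ring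
@[simp] theorem dt_self1 (a b : E3) : dt a a b = 0 := by unfold dt; ring
@[simp] theorem dt_self2 (a b : E3) : dt a b a = 0 := by unfold dt; ring
@[simp] theorem dt_self3 (a b : E3) : dt a b b = 0 := by unfold dt; ring
@[simp] theorem dt_add (a b x y : E3) : dt a b (x + y) = dt a b x + dt a b y := by
  simp only [dt, PiLp.add_apply]; ring
@[simp] theorem dt_smul (a b x : E3) (r : ℝ) : dt a b (r • x) = r * dt a b x := by
  simp only [dt, PiLp.smul_apply, smul_eq_mul]; ring
@[simp] theorem dt_neg (a b x : E3) : dt a b (-x) = - dt a b x := by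
  simp only [dt, PiLp.neg_apply]; ring
@[simp] theorem dt_zero (a b : E3) : dt a b 0 = 0 := by
  simp [dt]

theorem cramer (a b c z : E3) :
    dt a b c • z = dt b c z • a + dt c a z • b + dt a b z • c := by
  ext i
  fin_cases i <;> simp [dt] <;> ring

@[fun_prop] theorem continuous_dt (a b : E3) : Continuous (fun w : E3 => dt a b w) := by
  unfold dt; fun_prop

/-- the linear functional `dt a b` -/
def dtL (a b : E3) : E3 →ₗ[ℝ] ℝ where
  toFun := dt a b
  map_add' := dt_add a b
  map_smul' := by intro r x; simp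

theorem eq_of_dt {a b c z w : E3} (h : dt a b c ≠ 0) (h1 : dt a b z = dt a b w)
    (h2 : dt b c z = dt b c w) (h3 : dt c a z = dt c a w) : z = w := by
  have e := cramer a b c z
  have e' := cramer a b c w
  rw [h1, h2, h3, ← e'] at e
  exact smul_right_injective _ h e

/-- radial projection to the sphere -/
noncomputable def toS (v : E3) : S2 :=
  if h : v = 0 then ⟨EuclideanSpace.single 0 1, by simp⟩ else ⟨‖v‖⁻¹ • v, by simp [norm_smul, h]⟩

theorem toS_coe {v : E3} (h : v ≠ 0) : (toS v : E3) = ‖v‖⁻¹ • v := by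
  simp [toS, h]

theorem norm_S (z : S2) : ‖(z : E3)‖ = 1 := by
  exact mem_sphere_zero_iff_norm.1 z.2

theorem ne_zero_S (z : S2) : (z : E3) ≠ 0 := by
  intro h
  have := norm_S z
  rw [h] at this; simp at this

theorem toS_smul {r : ℝ} (hr : 0 < r) (v : E3) : toS (r • v) = toS v := by
  by_cases h : v = 0
  · simp [h]
  · apply Subtype.ext
    rw [toS_coe h, toS_coe (smul_ne_zero hr.ne' h), norm_smul, smul_smul]
    congr 1
    rw [Real.norm_of_nonneg hr.le]
    field_simp

theorem toS_self (z : S2) : toS (z : E3) = z := by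
  apply Subtype.ext
  rw [toS_coe (ne_zero_S z), norm_S]
  simp

theorem toS_eq_iff {v : E3} (hv : v ≠ 0) {z : S2} : toS v = z ↔ ∃ r : ℝ, 0 < r ∧ v = r • (z : E3) := by
  constructor
  · rintro rfl
    refine ⟨‖v‖, norm_pos_iff.2 hv, ?_⟩
    rw [toS_coe hv, smul_smul, mul_inv_cancel₀ (norm_ne_zero_iff.2 hv), one_smul]
  · rintro ⟨r, hr, rfl⟩
    rw [toS_smul hr, toS_self]

theorem continuousOn_toS : ContinuousOn toS {0}ᶜ := by
  rw [Topology.IsInducing.subtypeVal.continuousOn_iff]
  have : ContinuousOn (fun v : E3 => ‖v‖⁻¹ • v) {0}ᶜ := by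
    have h1 : ContinuousOn (fun v : E3 => ‖v‖⁻¹) {0}ᶜ := by
      apply ContinuousOn.inv₀
      · exact continuous_norm.continuousOn
      · intro v hv
        exact norm_ne_zero_iff.2 hv
    exact h1.smul continuousOn_id
  refine this.congr ?_
  intro v hv
  exact toS_coe hv

/-- signs of functionals are preserved by `toS` -/
theorem dt_toS (a b : E3) {v : E3} (h : v ≠ 0) : dt a b (toS v) = ‖v‖⁻¹ * dt a b v := by
  rw [toS_coe h, dt_smul]

theorem dt_toS_pos (a b : E3) {v : E3} (h : v ≠ 0) : 0 < dt a b (toS v) ↔ 0 < dt a b v := by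
  rw [dt_toS a b h]
  have : 0 < ‖v‖⁻¹ := inv_pos.2 (norm_pos_iff.2 h)
  constructor
  · intro h'; exact (pos_iff_pos_of_mul_pos h').1 this
  · intro h'; positivity

theorem dt_toS_neg (a b : E3) {v : E3} (h : v ≠ 0) : dt a b (toS v) < 0 ↔ dt a b v < 0 := by
  rw [dt_toS a b h]
  have : 0 < ‖v‖⁻¹ := inv_pos.2 (norm_pos_iff.2 h)
  constructor
  · intro h'
    by_contra hc
    push Not at hc
    have := mul_nonneg this.le hc
    linarith
  · intro h'; exact mul_neg_of_pos_of_neg this h'

theorem dt_toS_nonneg (a b : E3) {v : E3} (h : v ≠ 0) : 0 ≤ dt a b (toS v) ↔ 0 ≤ dt a b v := by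
  rw [← not_lt, ← not_lt, dt_toS_neg a b h]

theorem dt_toS_nonpos (a b : E3) {v : E3} (h : v ≠ 0) : dt a b (toS v) ≤ 0 ↔ dt a b v ≤ 0 := by
  rw [← not_lt, ← not_lt, dt_toS_pos a b h]

/-- the chart given by a linear equivalence `E ≃ ℝ × ℝ × ℝ` -/
noncomputable def chart (L : E3 ≃L[ℝ] ℝ × ℝ × ℝ) : OpenPartialHomeomorph S2 (ℝ × ℝ) where
  toFun y := ((L y).1 / (L y).2.2, (L y).2.1 / (L y).2.2)
  invFun p := toS (L.symm (p.1, p.2, 1))
  source := {y | 0 < (L y).2.2}
  target := univ
  map_source' := by intro y _; trivial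
  map_target' := by
    intro p _
    have hne : L.symm (p.1, p.2, 1) ≠ 0 := by
      intro h
      have := congrArg L h
      simp at this
    show 0 < (L (toS _ : S2)).2.2
    rw [toS_coe hne, map_smul]
    simp only [ContinuousLinearEquiv.apply_symm_apply, Prod.smul_snd, smul_eq_mul, mul_one]
    exact inv_pos.2 (norm_pos_iff.2 hne)
  left_inv' := by
    intro y hy
    have hy' : 0 < (L y).2.2 := hy
    have e : L.symm ((L y).1 / (L y).2.2, (L y).2.1 / (L y).2.2, 1) = ((L y).2.2)⁻¹ • (y : E3) := by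
      apply L.injective
      rw [ContinuousLinearEquiv.apply_symm_apply, map_smul]
      ext
      · simp [div_eq_inv_mul]
      · simp [div_eq_inv_mul]
      · simp [hy'.ne']
    simp only
    rw [e, toS_smul (inv_pos.2 hy'), toS_self]
  right_inv' := by
    intro p _
    have hne : L.symm (p.1, p.2, 1) ≠ 0 := by
      intro h
      have := congrArg L h
      simp at this
    rw [toS_coe hne, map_smul]
    simp only [ContinuousLinearEquiv.apply_symm_apply]
    have : ‖L.symm (p.1, p.2, 1)‖ ≠ 0 := norm_ne_zero_iff.2 hne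
    ext
    · simp; field_simp
    · simp; field_simp
  open_source := by
    have : Continuous (fun y : S2 => (L y).2.2) := by fun_prop
    exact isOpen_lt continuous_const this
  open_target := isOpen_univ
  continuousOn_toFun := by
    have h1 : Continuous (fun y : S2 => (L y).2.2) := by fun_prop
    have h2 : Continuous (fun y : S2 => (L y).1) := by fun_prop
    have h3 : Continuous (fun y : S2 => (L y).2.1) := by fun_prop
    apply ContinuousOn.prodMk
    · exact h2.continuousOn.div h1.continuousOn (fun y hy => (ne_of_gt hy))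
    · exact h3.continuousOn.div h1.continuousOn (fun y hy => (ne_of_gt hy))
  continuousOn_invFun := by
    apply ContinuousOn.comp continuousOn_toS
    · fun_prop
    · intro p _
      intro h
      have := congrArg L (h : L.symm (p.1, p.2, 1) = 0)
      simp at this

/-- Transversality of two great circle arcs. -/
theorem transversal_aux {A B : Set S2} {z : S2} (f g : E3 →ₗ[ℝ] ℝ) (k : E3 →ₗ[ℝ] ℝ)
    (inj : ∀ w : E3, f w = 0 → g w = 0 → k w = 0 → w = 0)
    (hf : f z = 0) (hg : g z = 0) (hk : 0 < k z) (U : Set S2) (hU : IsOpen U) (hz : z ∈ U)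
    (hA : ∀ w ∈ U, 0 < k w → (w ∈ A ↔ g w = 0)) (hB : ∀ w ∈ U, 0 < k w → (w ∈ B ↔ f w = 0)) :
    IsTransversalCrossing A B z := by
  have hinj : Function.Injective (f.prod (g.prod k)) := by
    rw [← LinearMap.ker_eq_bot, LinearMap.ker_eq_bot']
    intro w hw
    have h1 : f w = 0 := congrArg Prod.fst hw
    have h2 : g w = 0 := congrArg (fun p => p.2.1) hw
    have h3 : k w = 0 := congrArg (fun p => p.2.2) hw
    exact inj w h1 h2 h3
  have hdim : Module.finrank ℝ E3 = Module.finrank ℝ (ℝ × ℝ × ℝ) := by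
    simp
  let L0 := LinearEquiv.ofInjectiveOfFinrankEq _ hinj hdim
  let L : E3 ≃L[ℝ] ℝ × ℝ × ℝ := L0.toContinuousLinearEquiv
  have hL : ∀ w, L w = (f w, g w, k w) := fun w => rfl
  refine ⟨(chart L).restrOpen U hU, ?_, ?_, ?_⟩
  · refine ⟨?_, hz⟩
    show 0 < (L z).2.2
    rw [hL]; exact hk
  · show ((L z).1 / (L z).2.2, (L z).2.1 / (L z).2.2) = (0, 0)
    rw [hL, hf, hg]; simp
  · intro w hw
    have hw1 : 0 < k w := by
      have : 0 < (L w).2.2 := hw.1
      rwa [hL] at this
    have hw2 : w ∈ U := hw.2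
    have e : (((chart L).restrOpen U hU) w) = (f w / k w, g w / k w) := by
      show ((L w).1 / (L w).2.2, (L w).2.1 / (L w).2.2) = _
      rw [hL]
    rw [e]
    constructor
    · rw [hA w hw2 hw1]
      simp [hw1.ne']
    · rw [hB w hw2 hw1]
      simp [hw1.ne']

end Pool.Agent.H858FC
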