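import Pool.Agent.H858FC.Geodesic

set_option autoImplicit false

namespace Pool.Agent.H858FC

open Set

/-- open spherical triangle -/
def TInt (a b c : E3) : Set S2 := {z | 0 < dt a b z ∧ 0 < dt b c z ∧ 0 < dt c a z}
/-- closed spherical triangle -/
def TCl (a b c : E3) : Set S2 := {z | 0 ≤ dt a b z ∧ 0 ≤ dt b c z ∧ 0 ≤ dt c a z}
/-- complement of the closed spherical triangle -/
def TExt (a b c : E3) : Set S2 := {z | dt a b z < 0 ∨ dt b c z < 0 ∨ dt c a z < 0}
/-- complement of the open spherical triangle -/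
def TExtCl (a b c : E3) : Set S2 := {z | dt a b z ≤ 0 ∨ dt b c z ≤ 0 ∨ dt c a z ≤ 0}
/-- the boundary -/
def TBd (a b c : E3) : Set S2 := cone a b ∪ cone b c ∪ cone c a

theorem cdt (x y : E3) : Continuous (fun z : S2 => dt x y z) := by fun_prop

theorem isOpen_TInt (a b c : E3) : IsOpen (TInt a b c) :=
  (isOpen_lt continuous_const (cdt a b)).inter
    ((isOpen_lt continuous_const (cdt b c)).inter (isOpen_lt continuous_const (cdt c a)))

theorem isOpen_TExt (a b c : E3) : IsOpen (TExt a b c) :=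
  (isOpen_lt (cdt a b) continuous_const).union
    ((isOpen_lt (cdt b c) continuous_const).union (isOpen_lt (cdt c a) continuous_const))

theorem isClosed_TCl (a b c : E3) : IsClosed (TCl a b c) :=
  (isClosed_le continuous_const (cdt a b)).inter
    ((isClosed_le continuous_const (cdt b c)).inter (isClosed_le continuous_const (cdt c a)))

theorem isClosed_TExtCl (a b c : E3) : IsClosed (TExtCl a b c) :=
  (isClosed_le (cdt a b) continuous_const).union
    ((isClosed_le (cdt b c) continuous_const).union (isClosed_le (cdt c a) continuous_const))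

theorem disj_int_ext (a b c : E3) : Disjoint (TInt a b c) (TExt a b c) := by
  rw [Set.disjoint_left]
  rintro z ⟨h1, h2, h3⟩ (h | h | h) <;> linarith

theorem dt_cyc2 (a b c : E3) : dt c a b = dt a b c := by unfold dt; ring

/-- the complement of the boundary -/
theorem compl_TBd {a b c : E3} (h : 0 < dt a b c) : (TBd a b c)ᶜ = TInt a b c ∪ TExt a b c := by
  have hb : 0 < dt b c a := by rw [dt_cyc]; exact h
  have hc : 0 < dt c a b := by rw [dt_cyc2]; exact h
  ext z
  simp only [TBd, mem_compl_iff, mem_union, cone_iff h, cone_iff hb, cone_iff hc, TInt, TExt,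
    mem_ofPred_eq]
  constructor
  · intro hn
    push Not at hn
    obtain ⟨⟨n1, n2⟩, n3⟩ := hn
    by_contra hcon
    push Not at hcon
    obtain ⟨k1, k2, k3, k4⟩ := hcon
    rcases k2.eq_or_lt with e1 | e1
    · exact absurd (n1 e1.symm k3) (not_lt.2 k4)
    rcases k3.eq_or_lt with e2 | e2
    · exact absurd (n2 e2.symm k4) (not_lt.2 k2)
    have := k1 e1 e2
    have e3 : dt c a z = 0 := le_antisymm this k4
    exact absurd (n3 e3 k2) (not_lt.2 k3)
  · rintro (⟨h1, h2, h3⟩ | h4) ((⟨e1, e2, e3⟩ | ⟨e1, e2, e3⟩) | ⟨e1, e2, e3⟩)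
    · linarith
    · linarith
    · linarith
    · rcases h4 with h4 | h4 | h4 <;> linarith
    · rcases h4 with h4 | h4 | h4 <;> linarith
    · rcases h4 with h4 | h4 | h4 <;> linarith

/-- `a + b + c` -/
theorem dt_sum {a b c : E3} :
    dt a b (a + b + c) = dt a b c ∧ dt b c (a + b + c) = dt a b c ∧
      dt c a (a + b + c) = dt a b c := by
  refine ⟨by simp, ?_, ?_⟩
  · simp only [dt, PiLp.add_apply]; ring
  · simp only [dt, PiLp.add_apply]; ring

theorem sum_ne_zero {a b c : E3} (h : 0 < dt a b c) : a + b + c ≠ 0 := by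
  intro e
  have := (dt_sum (a := a) (b := b) (c := c)).1
  rw [e] at this
  simp at this
  linarith

theorem center_mem {a b c : E3} (h : 0 < dt a b c) : toS (a + b + c) ∈ TInt a b c := by
  obtain ⟨h1, h2, h3⟩ := dt_sum (a := a) (b := b) (c := c)
  have hne := sum_ne_zero h
  refine ⟨?_, ?_, ?_⟩
  · rw [dt_toS_pos _ _ hne, h1]; exact h
  · rw [dt_toS_pos _ _ hne, h2]; exact h
  · rw [dt_toS_pos _ _ hne, h3]; exact h

theorem anticenter_dt {a b c : E3} (h : 0 < dt a b c) :
    dt a b (toS (-(a + b + c))) < 0 ∧ dt b c (toS (-(a + b + c))) < 0 ∧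
      dt c a (toS (-(a + b + c))) < 0 := by
  obtain ⟨h1, h2, h3⟩ := dt_sum (a := a) (b := b) (c := c)
  have hne : -(a + b + c) ≠ 0 := neg_ne_zero.2 (sum_ne_zero h)
  refine ⟨?_, ?_, ?_⟩
  · rw [dt_toS_neg _ _ hne, dt_neg, h1]; linarith
  · rw [dt_toS_neg _ _ hne, dt_neg, h2]; linarith
  · rw [dt_toS_neg _ _ hne, dt_neg, h3]; linarith

theorem anticenter_mem {a b c : E3} (h : 0 < dt a b c) : toS (-(a + b + c)) ∈ TExt a b c :=
  Or.inl (anticenter_dt h).1

/-! ### Connectedness -/

theorem preconn_of_convex {C : Set E3} {A : Set S2} (hC : Convex ℝ C) (h0 : ∀ v ∈ C, v ≠ 0)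
    (h1 : ∀ v ∈ C, toS v ∈ A) (h2 : ∀ z ∈ A, (z : E3) ∈ C) : IsPreconnected A := by
  have : A = toS '' C := by
    ext z
    constructor
    · intro hz
      exact ⟨z, h2 z hz, toS_self z⟩
    · rintro ⟨v, hv, rfl⟩
      exact h1 v hv
  rw [this]
  exact hC.isPreconnected.image _ (continuousOn_toS.mono (fun v hv => h0 v hv))

theorem convex_pos (a b : E3) : Convex ℝ {v : E3 | 0 < dt a b v} := by
  have : {v : E3 | 0 < dt a b v} = {v : E3 | 0 < dtL a b v} := rfl
  rw [this]
  exact convex_halfSpace_gt (dtL a b).isLinear 0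

theorem convex_neg (a b : E3) : Convex ℝ {v : E3 | dt a b v < 0} := by
  have : {v : E3 | dt a b v < 0} = {v : E3 | dtL a b v < 0} := rfl
  rw [this]
  exact convex_halfSpace_lt (dtL a b).isLinear 0

theorem preconn_TInt (a b c : E3) : IsPreconnected (TInt a b c) := by
  have h0 : ∀ v ∈ {v : E3 | 0 < dt a b v} ∩ ({v : E3 | 0 < dt b c v} ∩ {v : E3 | 0 < dt c a v}),
      v ≠ 0 := by
    rintro v ⟨h1, -, -⟩ rfl
    simp at h1
  apply preconn_of_convex ((convex_pos a b).inter ((convex_pos b c).inter (convex_pos c a))) h0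
  · intro v hv
    have hne := h0 v hv
    obtain ⟨h1, h2, h3⟩ := hv
    exact ⟨(dt_toS_pos _ _ hne).2 h1, (dt_toS_pos _ _ hne).2 h2, (dt_toS_pos _ _ hne).2 h3⟩
  · rintro z ⟨h1, h2, h3⟩
    exact ⟨h1, h2, h3⟩

theorem preconn_hemi (a b : E3) : IsPreconnected {z : S2 | dt a b z < 0} := by
  have h0 : ∀ v ∈ {v : E3 | dt a b v < 0}, v ≠ 0 := by
    rintro v h1 rfl
    simp at h1
  apply preconn_of_convex (convex_neg a b) h0
  · intro v hv
    exact (dt_toS_neg _ _ (h0 v hv)).2 hv
  · intro z hz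
    exact hz

theorem preconn_TExt {a b c : E3} (h : 0 < dt a b c) : IsPreconnected (TExt a b c) := by
  obtain ⟨h1, h2, h3⟩ := anticenter_dt h
  have e : TExt a b c = {z : S2 | dt a b z < 0} ∪ ({z : S2 | dt b c z < 0} ∪
      {z : S2 | dt c a z < 0}) := rfl
  rw [e]
  exact IsPreconnected.union (toS (-(a + b + c))) h1 (Or.inl h2) (preconn_hemi a b)
    (IsPreconnected.union (toS (-(a + b + c))) h2 h3 (preconn_hemi b c) (preconn_hemi c a))

/-- the components of the union of two disjoint open connected sets -/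
theorem component_eq {X A B : Set S2} (hX : X = A ∪ B) (hA : IsOpen A) (hB : IsOpen B)
    (hd : Disjoint A B) (hc : IsPreconnected A) {x : S2} (hx : x ∈ A) :
    connectedComponentIn X x = A := by
  apply Set.Subset.antisymm
  · have h1 : connectedComponentIn X x ⊆ A ∪ B := by
      rw [← hX]; exact connectedComponentIn_subset X x
    have hxX : x ∈ X := by rw [hX]; exact Or.inl hx
    exact (isPreconnected_connectedComponentIn).subset_left_of_subset_union hA hB hd h1
      ⟨x, mem_connectedComponentIn hxX, hx⟩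
  · apply hc.subset_connectedComponentIn hx
    rw [hX]; exact subset_union_left

theorem isComponent_iff {a b c : E3} (h : 0 < dt a b c) (C : Set S2) :
    IsComponent C (TBd a b c)ᶜ ↔ C = TInt a b c ∨ C = TExt a b c := by
  have hX := compl_TBd h
  have hX' : (TBd a b c)ᶜ = TExt a b c ∪ TInt a b c := by rw [hX, union_comm]
  constructor
  · rintro ⟨x, hx, rfl⟩
    rw [hX] at hx
    rcases hx with hx | hx
    · left
      exact component_eq hX (isOpen_TInt a b c) (isOpen_TExt a b c) (disj_int_ext a b c)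
        (preconn_TInt a b c) hx
    · right
      exact component_eq hX' (isOpen_TExt a b c) (isOpen_TInt a b c) (disj_int_ext a b c).symm
        (preconn_TExt h) hx
  · rintro (rfl | rfl)
    · refine ⟨toS (a + b + c), ?_, ?_⟩
      · rw [hX]; exact Or.inl (center_mem h)
      · exact (component_eq hX (isOpen_TInt a b c) (isOpen_TExt a b c) (disj_int_ext a b c)
          (preconn_TInt a b c) (center_mem h)).symm
    · refine ⟨toS (-(a + b + c)), ?_, ?_⟩
      · rw [hX]; exact Or.inr (anticenter_mem h)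
      · exact (component_eq hX' (isOpen_TExt a b c) (isOpen_TInt a b c) (disj_int_ext a b c).symm
          (preconn_TExt h) (anticenter_mem h)).symm

/-! ### Closures -/

theorem mem_closure_of_path {A : Set S2} {z : S2} (w : E3)
    (h : ∀ ε : ℝ, 0 < ε → (z : E3) + ε • w ≠ 0 → toS ((z : E3) + ε • w) ∈ A)
    (hne : ∀ ε : ℝ, 0 < ε → (z : E3) + ε • w ≠ 0) : z ∈ closure A := by
  let g : ℝ → S2 := fun ε => toS ((z : E3) + ε • w)
  have hg : ContinuousAt g 0 := by
    have h1 : ContinuousAt toS ((z : E3) + (0 : ℝ) • w) := by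
      apply continuousOn_toS.continuousAt
      apply isOpen_compl_singleton.mem_nhds
      simp [ne_zero_S]
    exact ContinuousAt.comp (f := fun ε : ℝ => (z : E3) + ε • w) h1 (by fun_prop)
  have h0 : g 0 = z := by simp [g, toS_self]
  have h2 : (0 : ℝ) ∈ closure (Set.Ioi (0 : ℝ)) := by
    rw [closure_Ioi]; exact self_mem_Ici
  have h3 : g 0 ∈ closure (g '' (Set.Ioi (0 : ℝ))) :=
    hg.continuousWithinAt.mem_closure_image h2
  rw [h0] at h3
  apply closure_mono _ h3
  rintro _ ⟨ε, hε, rfl⟩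
  exact h ε hε (hne ε hε)

theorem closure_TInt {a b c : E3} (h : 0 < dt a b c) : closure (TInt a b c) = TCl a b c := by
  obtain ⟨s1, s2, s3⟩ := dt_sum (a := a) (b := b) (c := c)
  apply Set.Subset.antisymm
  · apply closure_minimal _ (isClosed_TCl a b c)
    rintro z ⟨h1, h2, h3⟩
    exact ⟨h1.le, h2.le, h3.le⟩
  · rintro z ⟨h1, h2, h3⟩
    apply mem_closure_of_path (a + b + c)
    · intro ε hε hne
      refine ⟨(dt_toS_pos _ _ hne).2 ?_, (dt_toS_pos _ _ hne).2 ?_, (dt_toS_pos _ _ hne).2 ?_⟩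
      · rw [dt_add, dt_smul, s1]; positivity
      · rw [dt_add, dt_smul, s2]; positivity
      · rw [dt_add, dt_smul, s3]; positivity
    · intro ε hε e
      have : dt a b ((z : E3) + ε • (a + b + c)) = 0 := by rw [e]; simp
      rw [dt_add, dt_smul, s1] at this
      have : 0 < ε * dt a b c := by positivity
      linarith

theorem closure_TExt {a b c : E3} (h : 0 < dt a b c) : closure (TExt a b c) = TExtCl a b c := by
  obtain ⟨s1, s2, s3⟩ := dt_sum (a := a) (b := b) (c := c)
  apply Set.Subset.antisymm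
  · apply closure_minimal _ (isClosed_TExtCl a b c)
    rintro z (h1 | h2 | h3)
    · exact Or.inl h1.le
    · exact Or.inr (Or.inl h2.le)
    · exact Or.inr (Or.inr h3.le)
  · rintro z hz
    have key : ∀ ε : ℝ, 0 < ε → dt a b ((z : E3) + ε • (-(a + b + c))) < 0 ∨
        dt b c ((z : E3) + ε • (-(a + b + c))) < 0 ∨ dt c a ((z : E3) + ε • (-(a + b + c))) < 0 := by
      intro ε hε
      have hp : 0 < ε * dt a b c := by positivity
      rcases hz with h1 | h1 | h1
      · left; rw [dt_add, dt_smul, dt_neg, s1]; linarith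
      · right; left; rw [dt_add, dt_smul, dt_neg, s2]; linarith
      · right; right; rw [dt_add, dt_smul, dt_neg, s3]; linarith
    apply mem_closure_of_path (-(a + b + c))
    · intro ε hε hne
      rcases key ε hε with h1 | h1 | h1
      · exact Or.inl ((dt_toS_neg _ _ hne).2 h1)
      · exact Or.inr (Or.inl ((dt_toS_neg _ _ hne).2 h1))
      · exact Or.inr (Or.inr ((dt_toS_neg _ _ hne).2 h1))
    · intro ε hε e
      rcases key ε hε with h1 | h1 | h1 <;> · rw [e] at h1; simp at h1

/-! ### Arcs inside closed triangles and closed exteriors -/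

theorem cone_subset_TCl {a b c x y : E3} (hx : toS x ∈ TCl a b c) (hy : toS y ∈ TCl a b c)
    (hx0 : x ≠ 0) (hy0 : y ≠ 0) : cone x y ⊆ TCl a b c := by
  obtain ⟨h1, h2, h3⟩ := hx
  obtain ⟨k1, k2, k3⟩ := hy
  rw [dt_toS_nonneg _ _ hx0] at h1 h2 h3
  rw [dt_toS_nonneg _ _ hy0] at k1 k2 k3
  rintro z ⟨s, t, hs, ht, e⟩
  refine ⟨?_, ?_, ?_⟩
  · rw [e, dt_add, dt_smul, dt_smul]; positivity
  · rw [e, dt_add, dt_smul, dt_smul]; positivity
  · rw [e, dt_add, dt_smul, dt_smul]; positivity

theorem cone_le {a b x y : E3} (hx : dt a b x ≤ 0) (hy : dt a b y ≤ 0) {z : S2}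
    (hz : z ∈ cone x y) : dt a b z ≤ 0 := by
  obtain ⟨s, t, hs, ht, e⟩ := hz
  rw [e, dt_add, dt_smul, dt_smul]
  have h1 := mul_nonpos_of_nonneg_of_nonpos hs hx
  have h2 := mul_nonpos_of_nonneg_of_nonpos ht hy
  linarith

/-- If the closed exterior of `abc` contains `x` and `y` on the outer side of a common edge, it
contains the arc `xy`. -/
theorem cone_subset_TExtCl {a b c x y : E3}
    (h : (dt a b x ≤ 0 ∧ dt a b y ≤ 0) ∨ (dt b c x ≤ 0 ∧ dt b c y ≤ 0) ∨
      (dt c a x ≤ 0 ∧ dt c a y ≤ 0)) : cone x y ⊆ TExtCl a b c := by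
  intro z hz
  rcases h with h | h | h
  · exact Or.inl (cone_le h.1 h.2 hz)
  · exact Or.inr (Or.inl (cone_le h.1 h.2 hz))
  · exact Or.inr (Or.inr (cone_le h.1 h.2 hz))

/-- If `x` is beyond the edge `ab` only, then the arc `xc` enters the triangle. -/
theorem cone_not_subset {a b c x : E3} (h : 0 < dt a b c)
    (hx2 : 0 < dt b c x) (hx3 : 0 < dt c a x) : ¬ cone x c ⊆ TExtCl a b c := by
  intro hsub
  -- the point x + λ c
  let l : ℝ := (|dt a b x| + 1) / dt a b c
  have hl : 0 < l := by positivity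
  have e1 : 0 < dt a b (x + l • c) := by
    rw [dt_add, dt_smul]
    have : l * dt a b c = |dt a b x| + 1 := by
      simp only [l]; field_simp
    rw [this]
    have := neg_abs_le (dt a b x)
    linarith
  have e2 : 0 < dt b c (x + l • c) := by
    rw [dt_add, dt_smul]; simp [hx2]
  have e3 : 0 < dt c a (x + l • c) := by
    rw [dt_add, dt_smul]; simp [hx3]
  have hne : x + l • c ≠ 0 := by
    intro e; rw [e] at e1; simp at e1
  have hmem : toS (x + l • c) ∈ cone x c := by
    refine ⟨‖x + l • c‖⁻¹, ‖x + l • c‖⁻¹ * l, by positivity, by positivity, ?_⟩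
    rw [toS_coe hne, smul_add, smul_smul]
  rcases hsub hmem with h1 | h1 | h1
  · rw [dt_toS_nonpos _ _ hne] at h1; linarith
  · rw [dt_toS_nonpos _ _ hne] at h1; linarith
  · rw [dt_toS_nonpos _ _ hne] at h1; linarith

end Pool.Agent.H858FC
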